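import Pool.Agent.Lib.MP_b76e55_an.InvD

/-!
Invariant metrics on finite abelian groups of bounded exponent: if the transportation cost space
embeds into `L₁` with distortion `D`, the metric is `O(D²)`-equivalent to a dominating ultrametric.
-/

namespace Pool.Agent.Results.MP_b76e55_an.BoundedExponent

open Finset Pool.Agent.Lib.MP_b76e55_an

/-- The transportation cost norm. -/
noncomputable def tc {M : Type} [Fintype M] [MetricSpace M] (μ : M → ℝ) : ℝ :=
  sInf {c : ℝ | ∃ a : M → M → ℝ, (∀ x y, 0 ≤ a x y) ∧ (∀ x, ∑ y, a x y - ∑ y, a y x = μ x) ∧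
    c = ∑ x, ∑ y, a x y * dist x y}

section
variable {M : Type} [Fintype M] [DecidableEq M] [MetricSpace M]

theorem le_tc [Nonempty M] (μ : M → ℝ) (hμ : ∑ x, μ x = 0) (f : M → ℝ)
    (hf : ∀ x y, f x - f y ≤ dist x y) : ∑ x, μ x * f x ≤ tc μ := by
  obtain ⟨o⟩ := ‹Nonempty M›
  refine le_csInf ⟨_, fun x y => (if y = o then (μ x)⁺ else 0) + (if x = o then (μ y)⁻ else 0),
    fun x y => by positivity, fun x => ?_, rfl⟩ ?_
  · have h1 : ∑ y, (μ y)⁻ = ∑ y, (μ y)⁺ := by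
      rw [← sub_eq_zero, ← neg_sub, ← sum_sub_distrib]
      simp [hμ]
    by_cases h : x = o <;> simp [h, sum_add_distrib, h1]
    linarith [posPart_sub_negPart (μ o)]
  · rintro _ ⟨a, a1, a2, rfl⟩
    simp only [← a2, sub_mul, sum_mul, sum_sub_distrib]
    rw [sum_comm (f := fun x y => a y x * f x), ← sum_sub_distrib]
    refine sum_le_sum fun x _ => ?_
    rw [← sum_sub_distrib]
    exact sum_le_sum fun y _ => by
      rw [← mul_sub]; exact mul_le_mul_of_nonneg_left (hf x y) (a1 x y)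

theorem tc_le (u v : M) : tc (Pi.single u 1 - Pi.single v 1 : M → ℝ) ≤ dist u v := by
  refine csInf_le ⟨0, ?_⟩ ⟨fun x y => if x = u ∧ y = v then 1 else 0, fun x y => by positivity,
    fun x => ?_, ?_⟩
  · rintro _ ⟨a, a1, -, rfl⟩
    exact sum_nonneg fun x _ => sum_nonneg fun y _ => mul_nonneg (a1 x y) dist_nonneg
  · simp [ite_and, Pi.single_apply]
  · simp [ite_and]

end

theorem result (q : ℕ) (hq : 0 < q) : ∃ C : ℝ,
    ∀ (G : Type) [AddCommGroup G] [Fintype G] [MetricSpace G], (∀ x : G, q • x = 0) →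
      (∀ x y z : G, dist (x + z) (y + z) = dist x y) →
      ∀ (α : Type) [MeasurableSpace α] (ν : MeasureTheory.Measure α)
        (F : (G → ℝ) → MeasureTheory.Lp ℝ 1 ν) (s D : ℝ), 0 < s → 1 ≤ D →
        (∀ u v : G → ℝ, ∑ x, u x = 0 → ∑ x, v x = 0 →
          s * tc (u - v) ≤ ‖F u - F v‖ ∧ ‖F u - F v‖ ≤ s * D * tc (u - v)) →
        ∃ t : G → G → ℝ, (∀ x, t x x = 0) ∧ (∀ x y, t x y = t y x) ∧
          (∀ x y z, t x y ≤ max (t x z) (t y z)) ∧
          ∀ x y, dist x y ≤ t x y ∧ t x y ≤ C * D ^ 2 * dist x y := by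
  classical
  obtain ⟨C, hC, h0⟩ := Inv.bounded_exp q hq
  refine ⟨(C + 1) * (4 * q ^ 2) ^ 2, fun G _ _ _ hG hi α _ ν F s D hs hD hF => ?_⟩
  obtain ⟨κ, hκ⟩ := exists_cuts tc le_tc tc_le F hs (by linarith) hF
  have h1 := Inv.test_of_cuts hi hκ hq hG
  have hq1 : (1 : ℝ) ≤ q := by exact_mod_cast hq
  have hD' : 1 ≤ 4 * (q : ℝ) ^ 2 * D := by nlinarith [mul_le_mul hq1 hq1 zero_le_one (by linarith)]
  have hd : ∀ x y : G, dist x y = dist (x - y) 0 := fun x y => by rw [← hi _ 0 y]; simp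
  set K := (C + 1) * (4 * (q : ℝ) ^ 2) ^ 2 * D ^ 2 with hK
  have hK0 : 0 < K := by positivity
  let S : ℝ → AddSubgroup G := fun r => AddSubgroup.closure {x | dist x 0 ≤ r}
  have h2 : ∀ r, 0 ≤ r → ∀ x ∈ S r, dist x 0 ≤ K * r := fun r hr x hx => by
    have := h0 (S r) (AddChar G ℂ) (fun y => dist (y : G) 0) _ r (fun y => Subtype.ext (hG y))
      (dist_self _) (fun x y => (dist_triangle _ (y : G) _).trans_eq (by
        rw [hd]; simp)) (h1.transfer (by linarith) (S r).subtype (AddMonoidHom.id _)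
        (fun a => le_rfl) fun b => ⟨b, rfl, le_rfl⟩) hD' hr
      AddSubgroup.closure_closure_coe_preimage ⟨x, hx⟩
    refine this.trans (mul_le_mul_of_nonneg_right ?_ hr)
    rw [hK, mul_pow]
    nlinarith [mul_nonneg (sq_nonneg (4 * (q : ℝ) ^ 2)) (sq_nonneg D)]
  let T : G → Set ℝ := fun x => {r | 0 ≤ r ∧ x ∈ S r}
  have t1 : ∀ x, dist x 0 ∈ T x := fun x => ⟨dist_nonneg, AddSubgroup.subset_closure (le_refl (dist x 0))⟩
  have t2 : ∀ x, BddBelow (T x) := fun x => ⟨0, fun r hr => hr.1⟩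
  have t3 : ∀ x r, sInf (T x) < r → r ∈ T x := fun x r h => by
    obtain ⟨a, ha, h⟩ := exists_lt_of_csInf_lt ⟨_, t1 x⟩ h
    exact ⟨ha.1.trans h.le, AddSubgroup.closure_mono (fun y hy => le_trans hy h.le) ha.2⟩
  refine ⟨fun x y => K * sInf (T (x - y)), fun x => ?_, fun x y => ?_, fun x y z => ?_,
    fun x y => ⟨?_, ?_⟩⟩
  · refine mul_eq_zero_of_right _ (le_antisymm (by simpa using csInf_le (t2 _) (t1 (x - x))) ?_)
    exact le_csInf ⟨_, t1 _⟩ fun r hr => hr.1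
  · simp only [T, ← neg_sub x y, neg_mem_iff]
  · rw [← mul_max_of_nonneg _ _ hK0.le]
    refine mul_le_mul_of_nonneg_left (le_of_forall_gt_imp_ge_of_dense fun r hr => ?_) hK0.le
    have b1 := t3 _ r ((le_max_left _ _).trans_lt hr)
    have b2 := t3 _ r ((le_max_right _ _).trans_lt hr)
    exact csInf_le (t2 _) ⟨b1.1, by simpa using (S r).sub_mem b1.2 b2.2⟩
  · rw [hd, ← div_le_iff₀' hK0]
    exact le_csInf ⟨_, t1 _⟩ fun r hr => (div_le_iff₀' hK0).2 (h2 r hr.1 _ hr.2)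
  · rw [hd]
    exact mul_le_mul_of_nonneg_left (csInf_le (t2 _) (t1 _)) hK0.le

end Pool.Agent.Results.MP_b76e55_an.BoundedExponent
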