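import Pool.Agent.Lib.MP_b76e55_an.Global

/-!
If the transportation cost space of an `n`-point metric space embeds into `L₁` with distortion `D`,
then between any two scales `r ≤ Δ` the space embeds into random dominating ultrametrics with
distortion `O(D (log log n)² (1 + log (Δ / r)))`.
-/

namespace Pool.Agent.Results.MP_b76e55_an.LogLog

open Finset Pool.Agent.Lib.MP_b76e55_an

/-- The transportation cost norm. -/
noncomputable def tc {M : Type} [Fintype M] [MetricSpace M] (μ : M → ℝ) : ℝ :=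
  sInf {c : ℝ | ∃ a : M → M → ℝ, (∀ x y, 0 ≤ a x y) ∧ (∀ x, ∑ y, a x y - ∑ y, a y x = μ x) ∧
    c = ∑ x, ∑ y, a x y * dist x y}

section
variable {M : Type} [Fintype M] [DecidableEq M] [MetricSpace M]

theorem le_tc [Nonempty M] (μ : M → ℝ) (hμ : ∑ x, μ x = 0) (f : M → ℝ)
    (hf : ∀ x y, f x - f y ≤ dist x y) : ∑ x, μ x * f x ≤ tc μ := by
  obtain ⟨o⟩ := ‹Nonempty M›
  refine le_csInf ⟨_, fun x y => (if y = o then (μ x)⁺ else 0) + (if x = o then (μ y)⁻ else 0),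
    fun x y => by positivity, fun x => ?_, rfl⟩ ?_
  · have h1 : ∑ y, (μ y)⁻ = ∑ y, (μ y)⁺ := by
      rw [← sub_eq_zero, ← neg_sub, ← sum_sub_distrib]
      simp [hμ]
    by_cases h : x = o <;> simp [h, sum_add_distrib, h1]
    linarith [posPart_sub_negPart (μ o)]
  · rintro _ ⟨a, a1, a2, rfl⟩
    simp only [← a2, sub_mul, sum_mul, sum_sub_distrib]
    rw [sum_comm (f := fun x y => a y x * f x), ← sum_sub_distrib]
    refine sum_le_sum fun x _ => ?_
    rw [← sum_sub_distrib]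
    exact sum_le_sum fun y _ => by
      rw [← mul_sub]; exact mul_le_mul_of_nonneg_left (hf x y) (a1 x y)

theorem tc_le (u v : M) : tc (Pi.single u 1 - Pi.single v 1 : M → ℝ) ≤ dist u v := by
  refine csInf_le ⟨0, ?_⟩ ⟨fun x y => if x = u ∧ y = v then 1 else 0, fun x y => by positivity,
    fun x => ?_, ?_⟩
  · rintro _ ⟨a, a1, -, rfl⟩
    exact sum_nonneg fun x _ => sum_nonneg fun y _ => mul_nonneg (a1 x y) dist_nonneg
  · simp [ite_and, Pi.single_apply]
  · simp [ite_and]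

end

theorem floor_bound {x : ℝ} (hx : 1 ≤ x) :
    x < 2 ^ (⌊2 * Real.log x⌋₊ + 1) ∧ ((⌊2 * Real.log x⌋₊ + 1 : ℕ) : ℝ) ≤ 2 * (1 + Real.log x) := by
  have h0 := Real.log_nonneg hx
  have h1 := Nat.lt_floor_add_one (2 * Real.log x)
  have h2 := Nat.floor_le (by positivity : 0 ≤ 2 * Real.log x)
  refine ⟨?_, by push_cast; linarith⟩
  rw [← Real.log_lt_log_iff (by linarith) (by positivity), Real.log_pow]
  push_cast
  nlinarith [Real.log_two_gt_d9]

theorem result (M : Type) [Fintype M] [MetricSpace M]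
    (α : Type) [MeasurableSpace α] (ν : MeasureTheory.Measure α)
    (F : (M → ℝ) → MeasureTheory.Lp ℝ 1 ν) (s D : ℝ) (hs : 0 < s) (hD : 1 ≤ D)
    (hF : ∀ u v : M → ℝ, ∑ x, u x = 0 → ∑ x, v x = 0 →
      s * tc (u - v) ≤ ‖F u - F v‖ ∧ ‖F u - F v‖ ≤ s * D * tc (u - v))
    (r Δ : ℝ) (hr : 0 < r) (hΔ : r ≤ Δ) :
    ∃ (k : ℕ) (w : Fin k → ℝ) (t : Fin k → M → M → ℝ), (∀ i, 0 ≤ w i) ∧ ∑ i, w i = 1 ∧
      (∀ i x, t i x x = 0) ∧ (∀ i x y, t i x y = t i y x) ∧
      (∀ i x y z, t i x y ≤ max (t i x z) (t i y z)) ∧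
      (∀ i x y, r ≤ dist x y → min (dist x y) Δ ≤ t i x y) ∧
      ∀ x y, ∑ i, w i * t i x y ≤ 10 ^ 7 * D * (1 + Real.log (1 + Real.log (Fintype.card M))) ^ 2 *
        (1 + Real.log (Δ / r)) * dist x y := by
  classical
  rcases isEmpty_or_nonempty M with h | h
  · exact ⟨1, 1, 0, by simp, by simp, by simp, by simp, by simp, by simp, by simp⟩
  obtain ⟨κ, hκ⟩ := exists_cuts tc le_tc tc_le F hs (by linarith) hF
  have L0 := Real.log_natCast_nonneg (Fintype.card M)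
  obtain ⟨T1, T2⟩ := floor_bound (le_add_of_nonneg_right L0 : (1 : ℝ) ≤ _)
  set T := ⌊2 * Real.log (1 + Real.log (Fintype.card M))⌋₊ + 1 with hT
  have T3 := pow_le_pow_left₀ (Nat.cast_nonneg _) T2 2
  have T4 : 1 ≤ T := by omega
  generalize 1 + Real.log (1 + Real.log (Fintype.card M)) = l at T2 T3 ⊢
  have T5 := mul_le_mul_of_nonneg_left T3 (by linarith : 0 ≤ D)
  have T6 : 0 ≤ D * T ^ 2 := by positivity
  have h1 := (one_le_div hr).2 hΔ
  obtain ⟨J1, J2⟩ := floor_bound h1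
  obtain ⟨k, w, t, a1, a2, a3, a4, a5, a6, a7⟩ := random_tree hκ hD T4 (by linarith)
    (hr.trans_le hΔ) (r := r) (J := ⌊2 * Real.log (Δ / r)⌋₊) (by
      rwa [div_lt_iff₀' (by positivity), ← div_lt_iff₀ hr])
  refine ⟨k, w, t, a1, a2, a3, a4, a5, a6, fun x y => (a7 x y).trans
    (mul_le_mul_of_nonneg_right ?_ dist_nonneg)⟩
  have b1 := Real.log_nonneg h1
  nlinarith [mul_le_mul T5 J2 (Nat.cast_nonneg _) (T6.trans T5),
    mul_nonneg (T6.trans T5) (by linarith : 0 ≤ 1 + Real.log (Δ / r))]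

end Pool.Agent.Results.MP_b76e55_an.LogLog
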