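import Pool.Agent.Lib.MP_b76e55_an.Sp.StrandMain
import Pool.Agent.Lib.MP_b76e55_an.Sp.Contr
import Pool.Agent.Lib.MP_b76e55_an.Sp.Dirac
import Pool.Agent.Lib.MP_b76e55_an.Sp.Struct
import Pool.Agent.Lib.MP_b76e55_an.Sp.Glue
import Pool.Agent.Lib.MP_b76e55_an.Sp.Minimax
import Pool.Agent.Lib.MP_b76e55_an.Sp.Norm
import Pool.Agent.Lib.MP_b76e55_an.Sp.Upper
import Pool.Agent.Lib.MP_b76e55_an.Sp.Height

/-!
Weighted series-parallel graphs (no `K₄` minor): if the transportation cost space embeds into `L₁`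
with distortion `D`, the shortest-path metric embeds into convex combinations of dominating tree
metrics with distortion `2400 D`.
-/

namespace Pool.Agent.Results.MP_b76e55_an.SeriesParallelLinear

open Finset Pool.Agent.Lib.MP_b76e55_an

/-- The transportation cost norm. -/
noncomputable def tc {M : Type} [Fintype M] [MetricSpace M] (μ : M → ℝ) : ℝ :=
  sInf {c : ℝ | ∃ a : M → M → ℝ, (∀ x y, 0 ≤ a x y) ∧ (∀ x, ∑ y, a x y - ∑ y, a y x = μ x) ∧
    c = ∑ x, ∑ y, a x y * dist x y}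

section
variable {M : Type} [Fintype M] [DecidableEq M] [MetricSpace M]

theorem le_tc [Nonempty M] (μ : M → ℝ) (hμ : ∑ x, μ x = 0) (f : M → ℝ)
    (hf : ∀ x y, f x - f y ≤ dist x y) : ∑ x, μ x * f x ≤ tc μ := by
  obtain ⟨o⟩ := ‹Nonempty M›
  refine le_csInf ⟨_, fun x y => (if y = o then (μ x)⁺ else 0) + (if x = o then (μ y)⁻ else 0),
    fun x y => by positivity, fun x => ?_, rfl⟩ ?_
  · have h1 : ∑ y, (μ y)⁻ = ∑ y, (μ y)⁺ := by
      rw [← sub_eq_zero, ← neg_sub, ← sum_sub_distrib]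
      simp [hμ]
    by_cases h : x = o <;> simp [h, sum_add_distrib, h1]
    linarith [posPart_sub_negPart (μ o)]
  · rintro _ ⟨a, a1, a2, rfl⟩
    simp only [← a2, sub_mul, sum_mul, sum_sub_distrib]
    rw [sum_comm (f := fun x y => a y x * f x), ← sum_sub_distrib]
    refine sum_le_sum fun x _ => ?_
    rw [← sum_sub_distrib]
    exact sum_le_sum fun y _ => by
      rw [← mul_sub]; exact mul_le_mul_of_nonneg_left (hf x y) (a1 x y)

theorem tc_le (u v : M) : tc (Pi.single u 1 - Pi.single v 1 : M → ℝ) ≤ dist u v := by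
  refine csInf_le ⟨0, ?_⟩ ⟨fun x y => if x = u ∧ y = v then 1 else 0, fun x y => by positivity,
    fun x => ?_, ?_⟩
  · rintro _ ⟨a, a1, -, rfl⟩
    exact sum_nonneg fun x _ => sum_nonneg fun y _ => mul_nonneg (a1 x y) dist_nonneg
  · simp [ite_and, Pi.single_apply]
  · simp [ite_and]

end

theorem result : ∀ (M : Type) [Fintype M] [MetricSpace M] (G : SimpleGraph M) (l : Sym2 M → ℝ),
    (∀ x y : M, IsLeast (Set.range fun p : G.Walk x y => (p.edges.map l).sum) (dist x y)) →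
    (¬ ∃ B : Fin 4 → Set M, (∀ i, (G.induce (B i)).Connected) ∧
      ∀ i j, i ≠ j → Disjoint (B i) (B j) ∧ ∃ x ∈ B i, ∃ y ∈ B j, G.Adj x y) →
    ∀ (α : Type) [MeasurableSpace α] (ν : MeasureTheory.Measure α)
      (F : (M → ℝ) → MeasureTheory.Lp ℝ 1 ν) (s D : ℝ), 0 < s → 1 ≤ D →
      (∀ u v : M → ℝ, ∑ x, u x = 0 → ∑ x, v x = 0 →
        s * tc (u - v) ≤ ‖F u - F v‖ ∧ ‖F u - F v‖ ≤ s * D * tc (u - v)) →
      ∃ (n : ℕ) (w : Fin n → ℝ) (t : Fin n → M → M → ℝ), (∀ i, 0 ≤ w i) ∧ ∑ i, w i = 1 ∧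
        (∀ i x, t i x x = 0) ∧ (∀ i x y, t i x y = t i y x) ∧
        (∀ i x y z u, t i x y + t i z u ≤ max (t i x z + t i y u) (t i x u + t i y z)) ∧
        (∀ i x y, dist x y ≤ t i x y) ∧
        ∀ x y, ∑ i, w i * t i x y ≤ 2400 * D * dist x y := by
  classical
  intro M _ _ G l hd h4 α _ ν F s D hs hD hF
  rcases subsingleton_or_nontrivial M with _ | _
  · exact ⟨1, fun _ => 1, fun _ _ _ => 0, by simp, by simp, by simp, by simp, by simp,
      fun _ x y => by simp [Subsingleton.elim x y], fun x y => by simp [Subsingleton.elim x y]⟩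
  obtain ⟨κ, hκ⟩ := exists_cuts tc le_tc tc_le F hs (by linarith) hF
  obtain ⟨k, w, t, w1, w2, w3, w4⟩ := Sp.main_linear
    (Sp.struct_stmt Sp.contr_stmt (Sp.dirac_stmt Sp.contr_stmt)) Sp.minimax_stmt Sp.norm_stmt
    (Sp.upper_stmt Sp.glue_stmt) Sp.height_stmt G l h4 hd hκ hD
  exact ⟨k, w, t, w1, w2, fun i x => (w3 i).zero x (mem_univ _),
    fun i x y => (w3 i).symm x (mem_univ _) y (mem_univ _),
    fun i x y z u => (w3 i).four x (mem_univ _) y (mem_univ _) z (mem_univ _) u (mem_univ _),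
    fun i x y => (w3 i).dom x (mem_univ _) y (mem_univ _), w4⟩

end Pool.Agent.Results.MP_b76e55_an.SeriesParallelLinear
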